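import Pool.Agent.H82.SPC.Cnt

/-!
# [H82 SPC] Fractions with denominators in a thin family near a given point

`frac_count`: the pairs `(p, c)`, `0 ≤ c < p₁ p₂`, with `‖c / (p₁ p₂) - x‖ < η`, are at most as many as the `p` with
`‖p₁ p₂ x‖ ≤ η M` (if `2 η M ≤ 1`).
-/

set_option autoImplicit false

namespace Pool.Agent.H82.SPC

open Finset

open Classical in
theorem frac_one (s : ℕ) (x η : ℝ) (hs : 2 * η * s ≤ 1) :
    ((range s).filter (fun c : ℕ => ∃ n : ℤ, |(c : ℝ) / s - x - n| < η)).card ≤ 1 := by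
  rw [card_le_one]
  intro c hc d hd
  rw [mem_filter, mem_range] at hc hd
  obtain ⟨hc1, n, hn⟩ := hc
  obtain ⟨hd1, m, hm⟩ := hd
  have hs0 : (0 : ℝ) < s := by
    have : 0 < s := by omega
    exact_mod_cast this
  have e1 : |(c : ℝ) - s * n - s * x| < η * s := by
    have : (c : ℝ) - s * n - s * x = ((c : ℝ) / s - x - n) * s := by
      field_simp
      ring
    rw [this, abs_mul, abs_of_pos hs0]
    exact mul_lt_mul_of_pos_right hn hs0
  have e2 : |(d : ℝ) - s * m - s * x| < η * s := by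
    have : (d : ℝ) - s * m - s * x = ((d : ℝ) / s - x - m) * s := by
      field_simp
      ring
    rw [this, abs_mul, abs_of_pos hs0]
    exact mul_lt_mul_of_pos_right hm hs0
  rw [abs_lt] at e1 e2
  have e3 : |((c - s * n - (d - s * m) : ℤ) : ℝ)| < 1 := by
    push_cast
    rw [abs_lt]
    constructor <;> linarith
  have e4 : |(c - s * n - (d - s * m) : ℤ)| < 1 := by exact_mod_cast e3
  rw [Int.abs_lt_one_iff] at e4
  have e5 : (s : ℤ) ∣ (c : ℤ) - d := ⟨n - m, by linarith⟩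
  have e6 : |(c : ℤ) - d| < s := by
    rw [abs_lt]
    constructor <;> omega
  have e7 := Int.eq_zero_of_abs_lt_dvd e5 e6
  omega

open Classical in
theorem frac_count (P : Finset (ℕ × ℕ)) (M : ℕ) (hM : ∀ p ∈ P, p.1 * p.2 ≤ M) (x η : ℝ) (hη : 0 ≤ η)
    (hηM : 2 * η * M ≤ 1) :
    ((P.sigma (fun p => range (p.1 * p.2))).filter
      (fun z => ∃ n : ℤ, |(z.2 : ℝ) / ((z.1.1 * z.1.2 : ℕ) : ℝ) - x - n| < η)).card ≤
      (P.filter (fun p => ∃ n : ℤ, |((p.1 * p.2 : ℕ) : ℝ) * x - n| ≤ η * M)).card := by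
  refine card_le_card_of_injOn (fun z => z.1) ?_ ?_
  · intro z hz
    rw [mem_coe, mem_filter, mem_sigma, mem_range] at hz
    obtain ⟨⟨hzP, hz2⟩, n, hn⟩ := hz
    rw [mem_coe, mem_filter]
    refine ⟨hzP, z.2 - (z.1.1 * z.1.2 : ℕ) * n, ?_⟩
    have hs : 0 < z.1.1 * z.1.2 := by omega
    have hs0 : (0 : ℝ) < ((z.1.1 * z.1.2 : ℕ) : ℝ) := by exact_mod_cast hs
    have hsM : ((z.1.1 * z.1.2 : ℕ) : ℝ) ≤ M := by exact_mod_cast hM _ hzP
    have e : ((z.1.1 * z.1.2 : ℕ) : ℝ) * x - (((z.2 : ℤ) - ((z.1.1 * z.1.2 : ℕ) : ℤ) * n : ℤ) : ℝ) =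
        -(((z.2 : ℝ) / ((z.1.1 * z.1.2 : ℕ) : ℝ) - x - n) * ((z.1.1 * z.1.2 : ℕ) : ℝ)) := by
      have : ((z.2 : ℝ) / ((z.1.1 * z.1.2 : ℕ) : ℝ) - x - n) * ((z.1.1 * z.1.2 : ℕ) : ℝ) =
          z.2 - ((z.1.1 * z.1.2 : ℕ) : ℝ) * x - ((z.1.1 * z.1.2 : ℕ) : ℝ) * n := by
        field_simp
      rw [this]
      push_cast
      ring
    show |((z.1.1 * z.1.2 : ℕ) : ℝ) * x - (((z.2 : ℤ) - ((z.1.1 * z.1.2 : ℕ) : ℤ) * n : ℤ) : ℝ)| ≤ η * M
    rw [e, abs_neg, abs_mul, abs_of_pos hs0]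
    exact mul_le_mul hn.le hsM hs0.le hη
  · intro z hz w hw hzw
    rw [mem_coe, mem_filter, mem_sigma] at hz hw
    obtain ⟨p, c⟩ := z
    obtain ⟨p', d⟩ := w
    have hpp : p = p' := hzw
    subst hpp
    have hs : 2 * η * ((p.1 * p.2 : ℕ) : ℝ) ≤ 1 := by
      have hsM : ((p.1 * p.2 : ℕ) : ℝ) ≤ M := by exact_mod_cast hM _ hz.1.1
      nlinarith
    have h1 := frac_one (p.1 * p.2) x η hs
    rw [card_le_one] at h1
    have h2 := h1 c (by rw [mem_filter]; exact ⟨hz.1.2, hz.2⟩) d (by rw [mem_filter]; exact ⟨hw.1.2, hw.2⟩)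
    rw [h2]

end Pool.Agent.H82.SPC
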