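import Pool.Agent.H82.SPC.Mls
import Pool.Agent.H82.SPC.Frc
import Pool.Agent.H21.BV.Mls

/-!
# [H82 SPC] The multiplicative large sieve for a set of moduli

`mls_sub`: all primitive characters whose modulus belongs to `Q`; `K` bounds the number of fractions with denominators in `Q`
at distance `< δ` modulo 1 from a reduced fraction with denominator in `Q`.
-/

set_option autoImplicit false

namespace Pool.Agent.H82.SPC

open Finset Pool.Agent.H21.BV Pool.Agent.H21.MT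

open Classical in
theorem far_sub (R : ℕ) (Q : Finset ℕ) (δ : ℝ) (hδ : 0 < δ) (K : ℕ)
    (hK : ∀ r ∈ Q, ∀ c : ℕ, c < r → c.Coprime r → ∀ t : Finset (ℕ × ℕ),
      (∀ z ∈ t, z.1 ∈ Q ∧ z.2 < z.1 ∧ z.2.Coprime z.1 ∧
        ∃ n : ℤ, |(z.2 : ℝ) / z.1 - (c : ℝ) / r - n| < δ) → t.card ≤ K)
    (M N : ℕ) (a : ℕ → ℂ) :
    ∑ c ∈ (univ : Finset (Fr R)).filter (fun c => c.1.val + 1 ∈ Q), ‖∑ n ∈ Ioc M (M + N), a n *
      ZMod.stdAddChar ((n : ZMod (c.1.val + 1)) * (c.2 : ZMod (c.1.val + 1)))‖ ^ 2 ≤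
      K * (8 * (N + 1 / δ + 1)) * ∑ n ∈ Ioc M (M + N), ‖a n‖ ^ 2 := by
  have h1 := mult_ls ((univ : Finset (Fr R)).filter (fun c => c.1.val + 1 ∈ Q)) fr δ hδ K
    (by
      intro i hi t ht h
      rw [mem_filter] at hi
      have h2 := hK _ hi.2 (i.2 : ZMod (i.1.val + 1)).val (ZMod.val_lt (i.2 : ZMod (i.1.val + 1)))
        (ZMod.val_coe_unit_coprime i.2)
        (t.image (fun j : Fr R => (j.1.val + 1, (j.2 : ZMod (j.1.val + 1)).val)))
        (by
          intro z hz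
          obtain ⟨j, hj, rfl⟩ := mem_image.1 hz
          have hjs := ht hj
          rw [mem_filter] at hjs
          obtain ⟨n, hn⟩ := h j hj
          refine ⟨hjs.2, ZMod.val_lt (j.2 : ZMod (j.1.val + 1)), ZMod.val_coe_unit_coprime j.2, -n, ?_⟩
          rw [← abs_neg]
          have e : -((((j.2 : ZMod (j.1.val + 1)).val : ℕ) : ℝ) / ((j.1.val + 1 : ℕ) : ℝ) -
              (((i.2 : ZMod (i.1.val + 1)).val : ℕ) : ℝ) / ((i.1.val + 1 : ℕ) : ℝ) - ((-n : ℤ) : ℝ)) =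
              fr i - fr j - n := by
            unfold fr
            push_cast
            ring
          exact lt_of_le_of_lt (le_of_eq (congrArg abs e)) hn)
      rw [card_image_of_injective] at h2
      · exact h2
      · rintro ⟨r, u⟩ ⟨r', u'⟩ h3
        have h4 := (Prod.ext_iff.1 h3).1
        have h5 := (Prod.ext_iff.1 h3).2
        have h6 : r = r' := Fin.ext (by
          have : r.val + 1 = r'.val + 1 := h4
          omega)
        subst h6
        have h7 : u = u' := by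
          apply Units.ext
          apply ZMod.val_injective
          exact h5
        rw [h7]) M N a
  refine le_trans (le_of_eq ?_) h1
  refine sum_congr rfl ?_
  intro c _
  congr 2
  refine sum_congr rfl ?_
  intro n _
  congr 1
  have h2 : (n : ZMod (c.1.val + 1)) * (c.2 : ZMod (c.1.val + 1)) =
      (((n : ℤ) * (((c.2 : ZMod (c.1.val + 1)).val : ℕ) : ℤ) : ℤ) : ZMod (c.1.val + 1)) := by
    push_cast
    rw [ZMod.natCast_zmod_val]
  rw [h2, ZMod.stdAddChar_coe]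
  unfold ee fr
  congr 1
  push_cast
  ring

open Classical in
theorem mls_sub (R : ℕ) (Q : Finset ℕ) (δ : ℝ) (hδ : 0 < δ) (K : ℕ)
    (hK : ∀ r ∈ Q, ∀ c : ℕ, c < r → c.Coprime r → ∀ t : Finset (ℕ × ℕ),
      (∀ z ∈ t, z.1 ∈ Q ∧ z.2 < z.1 ∧ z.2.Coprime z.1 ∧
        ∃ n : ℤ, |(z.2 : ℝ) / z.1 - (c : ℝ) / r - n| < δ) → t.card ≤ K)
    (M N : ℕ) (a : ℕ → ℂ) :
    ∑ c ∈ (PC R).filter (fun c => c.md ∈ Q),
      ‖∑ m ∈ Ioc M (M + N), a m * c.2 (m : ZMod (c.1.val + 1))‖ ^ 2 ≤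
      K * (8 * (N + 1 / δ + 1)) * ∑ m ∈ Ioc M (M + N), ‖a m‖ ^ 2 := by
  have h1 : ∑ c ∈ (PC R).filter (fun c => c.md ∈ Q),
        ‖∑ m ∈ Ioc M (M + N), a m * c.2 (m : ZMod (c.1.val + 1))‖ ^ 2 ≤
      ∑ c ∈ (univ : Finset (Ch R)).filter (fun c => c.1.val + 1 ∈ Q ∧ c.2.IsPrimitive),
        ‖∑ m ∈ Ioc M (M + N), a m * c.2 (m : ZMod (c.1.val + 1))‖ ^ 2 := by
    refine Finset.sum_le_sum_of_subset_of_nonneg ?_ fun _ _ _ => sq_nonneg _
    intro c hc
    rw [mem_filter] at hc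
    unfold PC at hc
    rw [Finset.mem_filter] at hc
    rw [mem_filter]
    exact ⟨mem_univ _, hc.2, hc.1.2.1⟩
  have h2 : ∑ c ∈ (univ : Finset (Ch R)).filter (fun c => c.1.val + 1 ∈ Q ∧ c.2.IsPrimitive),
        ‖∑ m ∈ Ioc M (M + N), a m * c.2 (m : ZMod (c.1.val + 1))‖ ^ 2 =
      ∑ r ∈ (univ : Finset (Fin R)).filter (fun r => r.val + 1 ∈ Q),
        ∑ χ ∈ (univ : Finset (DirichletCharacter ℂ (r.val + 1))).filter
        (fun χ => χ.IsPrimitive),
        ‖∑ m ∈ Ioc M (M + N), a m * χ (m : ZMod (r.val + 1))‖ ^ 2 := by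
    rw [Finset.sum_sigma' ((univ : Finset (Fin R)).filter (fun r => r.val + 1 ∈ Q))
      (fun r => (univ : Finset (DirichletCharacter ℂ (r.val + 1))).filter (fun χ => χ.IsPrimitive))
      (fun r χ => ‖∑ m ∈ Ioc M (M + N), a m * χ (m : ZMod (r.val + 1))‖ ^ 2)]
    refine Finset.sum_congr ?_ fun _ _ => rfl
    ext c
    rw [mem_filter, mem_sigma, mem_filter, mem_filter]
    constructor
    · rintro ⟨_, h3, h4⟩
      exact ⟨⟨mem_univ _, h3⟩, mem_univ _, h4⟩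
    · rintro ⟨⟨_, h3⟩, _, h4⟩
      exact ⟨mem_univ _, h3, h4⟩
  have h5 : ∑ r ∈ (univ : Finset (Fin R)).filter (fun r => r.val + 1 ∈ Q),
        ∑ χ ∈ (univ : Finset (DirichletCharacter ℂ (r.val + 1))).filter
        (fun χ => χ.IsPrimitive),
        ‖∑ m ∈ Ioc M (M + N), a m * χ (m : ZMod (r.val + 1))‖ ^ 2 ≤
      ∑ r ∈ (univ : Finset (Fin R)).filter (fun r => r.val + 1 ∈ Q),
        ∑ u : (ZMod (r.val + 1))ˣ, ‖∑ n ∈ Ioc M (M + N), a n *
        ZMod.stdAddChar ((n : ZMod (r.val + 1)) * (u : ZMod (r.val + 1)))‖ ^ 2 := by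
    refine Finset.sum_le_sum fun r _ => ?_
    have h6 := gau (r := r.val + 1) (Ioc M (M + N)) a
    refine le_trans (le_of_eq ?_) h6
    refine sum_congr ?_ fun _ _ => rfl
    ext χ
    rw [mem_filter]
  have h7 : ∑ r ∈ (univ : Finset (Fin R)).filter (fun r => r.val + 1 ∈ Q),
        ∑ u : (ZMod (r.val + 1))ˣ, ‖∑ n ∈ Ioc M (M + N), a n *
        ZMod.stdAddChar ((n : ZMod (r.val + 1)) * (u : ZMod (r.val + 1)))‖ ^ 2 =
      ∑ c ∈ (univ : Finset (Fr R)).filter (fun c => c.1.val + 1 ∈ Q), ‖∑ n ∈ Ioc M (M + N), a n *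
      ZMod.stdAddChar ((n : ZMod (c.1.val + 1)) * (c.2 : ZMod (c.1.val + 1)))‖ ^ 2 := by
    rw [Finset.sum_sigma' ((univ : Finset (Fin R)).filter (fun r => r.val + 1 ∈ Q))
      (fun r => (univ : Finset (ZMod (r.val + 1))ˣ))
      (fun r u => ‖∑ n ∈ Ioc M (M + N), a n *
        ZMod.stdAddChar ((n : ZMod (r.val + 1)) * (u : ZMod (r.val + 1)))‖ ^ 2)]
    refine Finset.sum_congr ?_ fun _ _ => rfl
    ext c
    rw [mem_filter, mem_sigma, mem_filter]
    constructor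
    · rintro ⟨⟨_, h3⟩, _⟩
      exact ⟨mem_univ _, h3⟩
    · rintro ⟨_, h3⟩
      exact ⟨⟨mem_univ _, h3⟩, mem_univ _⟩
  rw [h2] at h1
  rw [h7] at h5
  exact (h1.trans h5).trans (far_sub R Q δ hδ K hK M N a)

end Pool.Agent.H82.SPC
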