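import Mathlib

/-!
# [H82 SPC] Counting lemmas for the thin large sieve

`block_count`, `near_count`: integers `m`, `|m| ≤ M`, with `‖m a / r‖ ≤ δ`.
`rep_count`: representations `m = q₁ r₁ - q₂ r₂` by pairs on a line `b r + b' q = c`.
`sq_count`: the square of the number of pairs `p` on the line with `‖p₁ p₂ a / r‖ ≤ δ`.
-/

set_option autoImplicit false

namespace Pool.Agent.H82.SPC

open Finset

theorem block_count (r : ℕ) (a : ℤ) (hr : 0 < r) (ha : IsCoprime a (r : ℤ)) (δ : ℝ) (hδ : 0 ≤ δ)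
    (S : Finset ℤ) (hS : ∀ m ∈ S, ∀ m' ∈ S, |m - m'| < r)
    (hd : ∀ m ∈ S, ∃ n : ℤ, |(m : ℝ) * ((a : ℝ) / r) - n| ≤ δ) :
    (S.card : ℝ) ≤ 2 * δ * r + 1 := by
  classical
  have hr0 : (0 : ℝ) < r := by exact_mod_cast hr
  choose! n hn using hd
  have hz : 0 ≤ ⌊δ * r⌋ := Int.floor_nonneg.2 (by positivity)
  have h1 : S.card ≤ (Icc (-⌊δ * r⌋) ⌊δ * r⌋).card := by
    refine card_le_card_of_injOn (fun m => m * a - n m * r) ?_ ?_
    · intro m hm
      rw [mem_coe] at hm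
      rw [mem_coe, mem_Icc]
      have h2 := hn m hm
      have h3 : |((m * a - n m * r : ℤ) : ℝ)| ≤ δ * r := by
        have e : ((m * a - n m * r : ℤ) : ℝ) = ((m : ℝ) * ((a : ℝ) / r) - n m) * r := by
          push_cast
          field_simp
        rw [e, abs_mul, abs_of_pos hr0]
        exact mul_le_mul_of_nonneg_right h2 hr0.le
      rw [abs_le] at h3
      constructor
      · have h4 : -(m * a - n m * r) ≤ ⌊δ * r⌋ := by
          rw [Int.le_floor]
          push_cast at h3 ⊢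
          linarith [h3.1]
        show -⌊δ * r⌋ ≤ m * a - n m * r
        linarith
      · show m * a - n m * r ≤ ⌊δ * r⌋
        rw [Int.le_floor]
        exact h3.2
    · intro m hm m' hm' hmm
      rw [mem_coe] at hm hm'
      have h2 : (m - m') * a = (n m - n m') * r := by
        have : m * a - n m * r = m' * a - n m' * r := hmm
        linarith
      have h3 : (r : ℤ) ∣ (m - m') * a := ⟨n m - n m', by rw [h2, mul_comm]⟩
      have h4 : (r : ℤ) ∣ m - m' := ha.symm.dvd_of_dvd_mul_right h3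
      have h5 := Int.eq_zero_of_abs_lt_dvd h4 (hS m hm m' hm')
      linarith
  rw [Int.card_Icc] at h1
  have h2 : (S.card : ℤ) ≤ 2 * ⌊δ * r⌋ + 1 := by
    have : ((⌊δ * r⌋ + 1 - -⌊δ * r⌋).toNat : ℤ) = ⌊δ * r⌋ + 1 - -⌊δ * r⌋ :=
      Int.toNat_of_nonneg (by linarith)
    have h3 : (S.card : ℤ) ≤ ((⌊δ * r⌋ + 1 - -⌊δ * r⌋).toNat : ℤ) := by exact_mod_cast h1
    linarith
  have h3 : (S.card : ℝ) ≤ 2 * (⌊δ * r⌋ : ℝ) + 1 := by exact_mod_cast h2
  have h4 := Int.floor_le (δ * r)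
  linarith

theorem near_count (r : ℕ) (a : ℤ) (hr : 0 < r) (ha : IsCoprime a (r : ℤ)) (δ : ℝ) (hδ : 0 ≤ δ)
    (M : ℕ) (S : Finset ℤ) (hS : ∀ m ∈ S, |m| ≤ M)
    (hd : ∀ m ∈ S, ∃ n : ℤ, |(m : ℝ) * ((a : ℝ) / r) - n| ≤ δ) :
    (S.card : ℝ) ≤ (2 * M / r + 1) * (2 * δ * r + 1) := by
  classical
  have hr0 : (0 : ℝ) < r := by exact_mod_cast hr
  have hrz : (0 : ℤ) < r := by exact_mod_cast hr
  have h1 : S.card ≤ ⌊2 * δ * r + 1⌋₊ * (S.image (fun m : ℤ => (m + M) / (r : ℤ))).card := by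
    apply card_le_mul_card_image
    intro y _
    apply Nat.le_floor
    apply block_count r a hr ha δ hδ
    · intro m hm m' hm'
      rw [mem_filter] at hm hm'
      have e1 := Int.emod_add_mul_ediv (m + M) r
      have e2 := Int.emod_add_mul_ediv (m' + M) r
      rw [hm.2] at e1
      rw [hm'.2] at e2
      have e3 := Int.emod_nonneg (m + M) hrz.ne'
      have e4 := Int.emod_lt_of_pos (m + M) hrz
      have e5 := Int.emod_nonneg (m' + M) hrz.ne'
      have e6 := Int.emod_lt_of_pos (m' + M) hrz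
      rw [abs_lt]
      constructor <;> linarith
    · intro m hm
      exact hd m (mem_filter.1 hm).1
  have h2 : (S.image (fun m : ℤ => (m + M) / (r : ℤ))).card ≤ 2 * M / r + 1 := by
    have h3 : S.image (fun m : ℤ => (m + M) / (r : ℤ)) ⊆ Icc (0 : ℤ) ((2 * M / r : ℕ) : ℤ) := by
      intro y hy
      obtain ⟨m, hm, rfl⟩ := mem_image.1 hy
      have h4 := abs_le.1 (hS m hm)
      rw [mem_Icc]
      constructor
      · exact Int.ediv_nonneg (by linarith) hrz.le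
      · push_cast
        apply Int.ediv_le_ediv hrz
        linarith
    have h4 := card_le_card h3
    obtain ⟨k, hk⟩ : ∃ k : ℕ, k = 2 * M / r := ⟨_, rfl⟩
    rw [← hk] at h4 ⊢
    rw [Int.card_Icc] at h4
    omega
  have h3 : (S.card : ℝ) ≤ (⌊2 * δ * r + 1⌋₊ : ℝ) * ((2 * M / r + 1 : ℕ) : ℝ) := by
    have h4 : S.card ≤ ⌊2 * δ * r + 1⌋₊ * (2 * M / r + 1) := h1.trans (Nat.mul_le_mul_left _ h2)
    exact_mod_cast h4
  have h4 : (⌊2 * δ * r + 1⌋₊ : ℝ) ≤ 2 * δ * r + 1 := Nat.floor_le (by positivity)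
  have h5 : ((2 * M / r + 1 : ℕ) : ℝ) ≤ 2 * M / r + 1 := by
    push_cast
    have := @Nat.cast_div_le ℝ _ _ _ (2 * M) r
    push_cast at this
    linarith
  calc (S.card : ℝ) ≤ (⌊2 * δ * r + 1⌋₊ : ℝ) * ((2 * M / r + 1 : ℕ) : ℝ) := h3
    _ ≤ (2 * δ * r + 1) * (2 * M / r + 1) := by
        apply mul_le_mul h4 h5 (Nat.cast_nonneg _) (by positivity)
    _ = _ := mul_comm _ _

theorem rep_count (P : Finset (ℕ × ℕ)) (b b' c : ℤ) (hb : b ≠ 0) (hb' : b' ≠ 0)
    (hP : ∀ p ∈ P, b * p.2 + b' * p.1 = c) (m : ℤ) (hm : m ≠ 0) :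
    ((P ×ˢ P).filter (fun z => (z.1.1 : ℤ) * z.1.2 - z.2.1 * z.2.2 = m)).card ≤
      2 * (b * m).natAbs.divisors.card := by
  classical
  have hbm : b * m ≠ 0 := mul_ne_zero hb hm
  have key : ∀ z ∈ (P ×ˢ P).filter (fun z => (z.1.1 : ℤ) * z.1.2 - z.2.1 * z.2.2 = m),
      b * m = ((z.1.1 : ℤ) - z.2.1) * (c - b' * ((z.1.1 : ℤ) + z.2.1)) := by
    intro z hz
    rw [mem_filter, mem_product] at hz
    have h1 := hP _ hz.1.1
    have h2 := hP _ hz.1.2
    rw [← hz.2]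
    have e1 : b * (z.1.2 : ℤ) = c - b' * z.1.1 := by linarith
    have e2 : b * (z.2.2 : ℤ) = c - b' * z.2.1 := by linarith
    have e3 : b * ((z.1.1 : ℤ) * z.1.2 - z.2.1 * z.2.2) =
        z.1.1 * (b * z.1.2) - z.2.1 * (b * z.2.2) := by ring
    rw [e3, e1, e2]
    ring
  have h1 : ((P ×ˢ P).filter (fun z => (z.1.1 : ℤ) * z.1.2 - z.2.1 * z.2.2 = m)).card ≤
      ((b * m).natAbs.divisors ×ˢ (univ : Finset Bool)).card := by
    refine card_le_card_of_injOn
      (fun z => (((z.1.1 : ℤ) - z.2.1).natAbs, decide (0 < (z.1.1 : ℤ) - z.2.1))) ?_ ?_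
    · intro z hz
      rw [mem_coe] at hz
      have h2 := key z hz
      rw [mem_coe, mem_product]
      refine ⟨?_, mem_univ _⟩
      rw [Nat.mem_divisors]
      constructor
      · show ((z.1.1 : ℤ) - z.2.1).natAbs ∣ (b * m).natAbs
        rw [Int.natAbs_dvd_natAbs]
        exact ⟨_, h2⟩
      · rw [Int.natAbs_ne_zero]
        exact hbm
    · intro z hz w hw hzw
      rw [mem_coe] at hz hw
      have hz1 := key z hz
      have hw1 := key w hw
      have e1 : ((z.1.1 : ℤ) - z.2.1).natAbs = ((w.1.1 : ℤ) - w.2.1).natAbs :=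
        (Prod.ext_iff.1 hzw).1
      have e2 : decide (0 < (z.1.1 : ℤ) - z.2.1) = decide (0 < (w.1.1 : ℤ) - w.2.1) :=
        (Prod.ext_iff.1 hzw).2
      rw [decide_eq_decide] at e2
      have hd : (z.1.1 : ℤ) - z.2.1 = (w.1.1 : ℤ) - w.2.1 := by omega
      have hd0 : (z.1.1 : ℤ) - z.2.1 ≠ 0 := by
        intro h0
        rw [h0, zero_mul] at hz1
        exact hbm hz1
      rw [hz1, hd] at hw1
      have hd0' := hd0
      rw [hd] at hd0'
      have h3 := mul_left_cancel₀ hd0' hw1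
      have h4 : b' * ((z.1.1 : ℤ) + z.2.1) = b' * ((w.1.1 : ℤ) + w.2.1) := by linarith
      have h5 := mul_left_cancel₀ hb' h4
      have h6 : (z.1.1 : ℤ) = w.1.1 := by linarith
      have h7 : (z.2.1 : ℤ) = w.2.1 := by linarith
      rw [mem_filter, mem_product] at hz hw
      have k1 := hP _ hz.1.1
      have k2 := hP _ hz.1.2
      have k3 := hP _ hw.1.1
      have k4 := hP _ hw.1.2
      rw [h6] at k1
      rw [h7] at k2
      have h8 : (z.1.2 : ℤ) = w.1.2 := mul_left_cancel₀ hb (by linarith)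
      have h9 : (z.2.2 : ℤ) = w.2.2 := mul_left_cancel₀ hb (by linarith)
      have i1 : z.1.1 = w.1.1 := by exact_mod_cast h6
      have i2 : z.2.1 = w.2.1 := by exact_mod_cast h7
      have i3 : z.1.2 = w.1.2 := by exact_mod_cast h8
      have i4 : z.2.2 = w.2.2 := by exact_mod_cast h9
      exact Prod.ext_iff.2 ⟨Prod.ext_iff.2 ⟨i1, i3⟩, Prod.ext_iff.2 ⟨i2, i4⟩⟩
  rw [card_product, card_univ, Fintype.card_bool, mul_comm] at h1
  exact h1

open Classical in
theorem sq_count (P : Finset (ℕ × ℕ)) (b b' c : ℤ) (hb : b ≠ 0) (hb' : b' ≠ 0)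
    (hP : ∀ p ∈ P, b * p.2 + b' * p.1 = c)
    (hinj : ∀ p ∈ P, ∀ p' ∈ P, p.1 * p.2 = p'.1 * p'.2 → p = p')
    (M : ℕ) (hM : ∀ p ∈ P, p.1 * p.2 ≤ M)
    (T : ℝ) (hT : ∀ m : ℤ, m ≠ 0 → |m| ≤ M → ((b * m).natAbs.divisors.card : ℝ) ≤ T) (hT0 : 0 ≤ T)
    (r : ℕ) (a : ℤ) (hr : 0 < r) (ha : IsCoprime a (r : ℤ)) (δ : ℝ) (hδ : 0 ≤ δ) :
    ((P.filter (fun p => ∃ n : ℤ, |((p.1 * p.2 : ℕ) : ℝ) * ((a : ℝ) / r) - n| ≤ δ)).card : ℝ) ^ 2 ≤
      (P.filter (fun p => ∃ n : ℤ, |((p.1 * p.2 : ℕ) : ℝ) * ((a : ℝ) / r) - n| ≤ δ)).card +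
        2 * T * ((2 * M / r + 1) * (4 * δ * r + 1)) := by
  obtain ⟨A, hA⟩ : ∃ A, A = P.filter (fun p => ∃ n : ℤ,
    |((p.1 * p.2 : ℕ) : ℝ) * ((a : ℝ) / r) - n| ≤ δ) := ⟨_, rfl⟩
  rw [← hA]
  have hAP : A ⊆ P := by rw [hA]; exact filter_subset _ _
  obtain ⟨f, hf⟩ : ∃ f : (ℕ × ℕ) × (ℕ × ℕ) → ℤ,
    f = fun z => (z.1.1 : ℤ) * z.1.2 - z.2.1 * z.2.2 := ⟨_, rfl⟩
  obtain ⟨S, hS⟩ : ∃ S : Finset ℤ, S = ((A ×ˢ A).image f).erase 0 := ⟨_, rfl⟩
  -- the diagonal
  have hdiag : ((A ×ˢ A).filter (fun z => f z = 0)).card ≤ A.card := by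
    refine card_le_card_of_injOn (fun z => z.1) ?_ ?_
    · intro z hz
      rw [mem_coe, mem_filter, mem_product] at hz
      exact hz.1.1
    · intro z hz w hw hzw
      rw [mem_coe, mem_filter, mem_product] at hz hw
      have hz2 : z.1 = z.2 := by
        apply hinj _ (hAP hz.1.1) _ (hAP hz.1.2)
        have := hz.2
        rw [hf] at this
        have h1 : (z.1.1 : ℤ) * z.1.2 = z.2.1 * z.2.2 := by linarith
        exact_mod_cast h1
      have hw2 : w.1 = w.2 := by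
        apply hinj _ (hAP hw.1.1) _ (hAP hw.1.2)
        have := hw.2
        rw [hf] at this
        have h1 : (w.1.1 : ℤ) * w.1.2 = w.2.1 * w.2.2 := by linarith
        exact_mod_cast h1
      have hzw' : z.1 = w.1 := hzw
      refine Prod.ext_iff.2 ⟨hzw', ?_⟩
      rw [← hz2, ← hw2, hzw']
  have hoff : (((A ×ˢ A).filter (fun z => ¬ f z = 0)).card : ℝ) ≤ 2 * T * S.card := by
    have h1 : ((A ×ˢ A).filter (fun z => ¬ f z = 0)).card ≤
        ⌊2 * T⌋₊ * (((A ×ˢ A).filter (fun z => ¬ f z = 0)).image f).card := by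
      apply card_le_mul_card_image
      intro m hm
      obtain ⟨z, hz, hzm⟩ := mem_image.1 hm
      rw [mem_filter, mem_product] at hz
      have hm0 : m ≠ 0 := by rw [← hzm]; exact hz.2
      have hmM : |m| ≤ M := by
        have e1 := hM _ (hAP hz.1.1)
        have e2 := hM _ (hAP hz.1.2)
        rw [← hzm, hf]
        show |(z.1.1 : ℤ) * z.1.2 - z.2.1 * z.2.2| ≤ M
        have e3 : (z.1.1 : ℤ) * z.1.2 ≤ M := by exact_mod_cast e1
        have e4 : (z.2.1 : ℤ) * z.2.2 ≤ M := by exact_mod_cast e2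
        have e5 : (0 : ℤ) ≤ (z.1.1 : ℤ) * z.1.2 := by positivity
        have e6 : (0 : ℤ) ≤ (z.2.1 : ℤ) * z.2.2 := by positivity
        rw [abs_le]
        constructor <;> linarith
      apply Nat.le_floor
      have h2 := rep_count P b b' c hb hb' hP m hm0
      have h3 : (((A ×ˢ A).filter (fun z => ¬ f z = 0)).filter (fun z => f z = m)).card ≤
          2 * (b * m).natAbs.divisors.card := by
        refine le_trans (card_le_card ?_) h2
        intro w hw
        rw [mem_filter, mem_filter, mem_product] at hw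
        rw [mem_filter, mem_product]
        refine ⟨⟨hAP hw.1.1.1, hAP hw.1.1.2⟩, ?_⟩
        rw [← hw.2, hf]
      have h4 : ((((A ×ˢ A).filter (fun z => ¬ f z = 0)).filter (fun z => f z = m)).card : ℝ) ≤
          2 * ((b * m).natAbs.divisors.card : ℝ) := by exact_mod_cast h3
      have h5 := hT m hm0 hmM
      linarith
    have h2 : ((A ×ˢ A).filter (fun z => ¬ f z = 0)).image f ⊆ S := by
      intro m hm
      obtain ⟨z, hz, hzm⟩ := mem_image.1 hm
      rw [mem_filter] at hz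
      rw [hS, mem_erase, mem_image]
      refine ⟨?_, z, hz.1, hzm⟩
      rw [← hzm]
      exact hz.2
    have h3 : ((A ×ˢ A).filter (fun z => ¬ f z = 0)).card ≤ ⌊2 * T⌋₊ * S.card :=
      h1.trans (Nat.mul_le_mul_left _ (card_le_card h2))
    have h4 : (((A ×ˢ A).filter (fun z => ¬ f z = 0)).card : ℝ) ≤ (⌊2 * T⌋₊ : ℝ) * S.card := by
      exact_mod_cast h3
    refine h4.trans (mul_le_mul_of_nonneg_right ?_ (Nat.cast_nonneg _))
    exact Nat.floor_le (by positivity)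
  have hSc : (S.card : ℝ) ≤ (2 * M / r + 1) * (2 * (2 * δ) * r + 1) := by
    apply near_count r a hr ha (2 * δ) (by positivity) M S
    · intro m hm
      rw [hS, mem_erase, mem_image] at hm
      obtain ⟨_, z, hz, hzm⟩ := hm
      rw [mem_product] at hz
      have e1 := hM _ (hAP hz.1)
      have e2 := hM _ (hAP hz.2)
      rw [← hzm, hf]
      show |(z.1.1 : ℤ) * z.1.2 - z.2.1 * z.2.2| ≤ M
      have e3 : (z.1.1 : ℤ) * z.1.2 ≤ M := by exact_mod_cast e1
      have e4 : (z.2.1 : ℤ) * z.2.2 ≤ M := by exact_mod_cast e2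
      have e5 : (0 : ℤ) ≤ (z.1.1 : ℤ) * z.1.2 := by positivity
      have e6 : (0 : ℤ) ≤ (z.2.1 : ℤ) * z.2.2 := by positivity
      rw [abs_le]
      constructor <;> linarith
    · intro m hm
      rw [hS, mem_erase, mem_image] at hm
      obtain ⟨_, z, hz, hzm⟩ := hm
      rw [mem_product, hA, mem_filter, mem_filter] at hz
      obtain ⟨⟨_, n1, hn1⟩, ⟨_, n2, hn2⟩⟩ := hz
      refine ⟨n1 - n2, ?_⟩
      have e : (m : ℝ) * ((a : ℝ) / r) - ((n1 - n2 : ℤ) : ℝ) =
          (((z.1.1 * z.1.2 : ℕ) : ℝ) * ((a : ℝ) / r) - n1) -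
            (((z.2.1 * z.2.2 : ℕ) : ℝ) * ((a : ℝ) / r) - n2) := by
        rw [← hzm, hf]
        push_cast
        ring
      rw [e]
      refine (abs_sub _ _).trans ?_
      linarith
  have hsplit : (A.card : ℝ) ^ 2 = ((A ×ˢ A).filter (fun z => f z = 0)).card +
      ((A ×ˢ A).filter (fun z => ¬ f z = 0)).card := by
    have h1 := card_filter_add_card_filter_not (s := A ×ˢ A) (fun z => f z = 0)
    rw [card_product] at h1
    rw [sq]
    exact_mod_cast h1.symm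
  rw [hsplit]
  have h1 : (((A ×ˢ A).filter (fun z => f z = 0)).card : ℝ) ≤ A.card := by exact_mod_cast hdiag
  have h2 : 2 * T * (S.card : ℝ) ≤ 2 * T * ((2 * M / r + 1) * (4 * δ * r + 1)) := by
    apply mul_le_mul_of_nonneg_left _ (by positivity)
    have e : 2 * (2 * δ) * (r : ℝ) + 1 = 4 * δ * r + 1 := by ring
    rw [← e]
    exact hSc
  linarith

end Pool.Agent.H82.SPC
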