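import Pool.Agent.H21.BV.Als

/-!
# [H82 SPC] The additive large sieve with multiplicity

If every point has at most `K` points (itself included) at distance `< δ` modulo 1, the points can be coloured with `K` colours
such that each colour class is `δ`-separated; `add_ls` for each colour.
-/

set_option autoImplicit false

namespace Pool.Agent.H82.SPC

open Finset Pool.Agent.H21.BV

/-- greedy colouring -/
theorem greedy {ι : Type*} [DecidableEq ι] (adj : ι → ι → Prop) (hsym : ∀ i j, adj i j → adj j i)
    (K : ℕ) (s : Finset ι)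
    (hK : ∀ i ∈ s, ∀ t : Finset ι, t ⊆ s → i ∉ t → (∀ j ∈ t, adj i j) → t.card < K) :
    ∃ col : ι → ℕ, (∀ i ∈ s, col i < K) ∧ ∀ i ∈ s, ∀ j ∈ s, i ≠ j → adj i j → col i ≠ col j := by
  classical
  induction s using Finset.induction_on with
  | empty => exact ⟨fun _ => 0, fun i hi => absurd hi (notMem_empty i),
      fun i hi => absurd hi (notMem_empty i)⟩
  | insert i s hi ih =>
    obtain ⟨col, hc1, hc2⟩ := ih (fun j hj t ht hjt h => hK j (mem_insert_of_mem hj) t
      (ht.trans (subset_insert _ _)) hjt h)
    obtain ⟨t, ht⟩ : ∃ t, t = s.filter (fun j => adj i j) := ⟨_, rfl⟩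
    have htc : t.card < K := by
      apply hK i (mem_insert_self _ _) t
      · rw [ht]
        exact (filter_subset _ _).trans (subset_insert _ _)
      · rw [ht, mem_filter]
        exact fun h => hi h.1
      · intro j hj
        rw [ht, mem_filter] at hj
        exact hj.2
    have hex : ∃ c ∈ range K, c ∉ t.image col := by
      by_contra hno
      push Not at hno
      have h1 : range K ⊆ t.image col := fun c hc => hno c hc
      have h2 := card_le_card h1
      rw [card_range] at h2
      have h3 := card_image_le (s := t) (f := col)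
      omega
    obtain ⟨c, hcK, hct⟩ := hex
    refine ⟨fun j => if j = i then c else col j, ?_, ?_⟩
    · intro j hj
      show (if j = i then c else col j) < K
      by_cases hji : j = i
      · rw [if_pos hji]
        exact mem_range.1 hcK
      · rw [if_neg hji]
        rw [mem_insert] at hj
        exact hc1 j (hj.resolve_left hji)
    · intro j hj k hk hjk hadj
      show (if j = i then c else col j) ≠ (if k = i then c else col k)
      rw [mem_insert] at hj hk
      by_cases hji : j = i
      · rw [if_pos hji]
        have hki : k ≠ i := fun h => hjk (hji.trans h.symm)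
        rw [if_neg hki]
        intro h
        apply hct
        rw [mem_image]
        refine ⟨k, ?_, h.symm⟩
        rw [ht, mem_filter]
        refine ⟨hk.resolve_left hki, ?_⟩
        rw [← hji]
        exact hadj
      · rw [if_neg hji]
        by_cases hki : k = i
        · rw [if_pos hki]
          intro h
          apply hct
          rw [mem_image]
          refine ⟨j, ?_, h⟩
          rw [ht, mem_filter]
          refine ⟨hj.resolve_left hji, ?_⟩
          rw [← hki]
          exact hsym _ _ hadj
        · rw [if_neg hki]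
          exact hc2 j (hj.resolve_left hji) k (hk.resolve_left hki) hjk hadj

theorem mult_ls {ι : Type*} (s : Finset ι) (α : ι → ℝ) (δ : ℝ) (hδ : 0 < δ) (K : ℕ)
    (hK : ∀ i ∈ s, ∀ t : Finset ι, t ⊆ s → (∀ j ∈ t, ∃ n : ℤ, |α i - α j - n| < δ) → t.card ≤ K)
    (M N : ℕ) (a : ℕ → ℂ) :
    ∑ i ∈ s, ‖∑ n ∈ Ioc M (M + N), a n * ee (n * α i)‖ ^ 2 ≤
      K * (8 * (N + 1 / δ + 1)) * ∑ n ∈ Ioc M (M + N), ‖a n‖ ^ 2 := by
  classical
  obtain ⟨col, hc1, hc2⟩ := greedy (fun i j => ∃ n : ℤ, |α i - α j - n| < δ)
    (by
      rintro i j ⟨n, hn⟩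
      refine ⟨-n, ?_⟩
      rw [← abs_neg]
      have e : -(α j - α i - ((-n : ℤ) : ℝ)) = α i - α j - n := by
        push_cast
        ring
      rw [e]
      exact hn) K s
    (by
      intro i hi t ht hit h
      have h1 := hK i hi (insert i t) (insert_subset hi ht) (by
        intro j hj
        rw [mem_insert] at hj
        rcases hj with rfl | hj
        · refine ⟨0, ?_⟩
          rw [sub_self, Int.cast_zero, sub_zero, abs_zero]
          exact hδ
        · exact h j hj)
      rw [card_insert_of_notMem hit] at h1
      omega)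
  have h1 : ∑ i ∈ s, ‖∑ n ∈ Ioc M (M + N), a n * ee (n * α i)‖ ^ 2 =
      ∑ c ∈ range K, ∑ i ∈ s.filter (fun i => col i = c),
        ‖∑ n ∈ Ioc M (M + N), a n * ee (n * α i)‖ ^ 2 := by
    symm
    apply sum_fiberwise_of_maps_to
    intro i hi
    exact mem_range.2 (hc1 i hi)
  rw [h1]
  have h2 : ∀ c ∈ range K, ∑ i ∈ s.filter (fun i => col i = c),
        ‖∑ n ∈ Ioc M (M + N), a n * ee (n * α i)‖ ^ 2 ≤
      8 * (N + 1 / δ + 1) * ∑ n ∈ Ioc M (M + N), ‖a n‖ ^ 2 := by
    intro c _
    apply add_ls _ α δ hδ
    intro i hi j hj hij n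
    rw [mem_filter] at hi hj
    by_contra hlt
    rw [not_le] at hlt
    exact hc2 i hi.1 j hj.1 hij ⟨n, hlt⟩ (hi.2.trans hj.2.symm)
  refine (sum_le_sum h2).trans (le_of_eq ?_)
  rw [sum_const, card_range, nsmul_eq_mul]
  ring

end Pool.Agent.H82.SPC
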