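import Pool.Agent.H82.SPC.Sub

/-!
# [H82 SPC] The large sieve for the thin family of moduli `q r`, `b r + b' q = c`

`thin_ls`: with `L = N + 8 R²`, constant `24 (1 + 5 √T) (L + 8 R² √L)`.
-/

set_option autoImplicit false

namespace Pool.Agent.H82.SPC

open Finset Pool.Agent.H21.BV Pool.Agent.H21.MT

theorem thin_ls (P : Finset (ℕ × ℕ)) (b b' c : ℤ) (hb : b ≠ 0) (hb' : b' ≠ 0)
    (hP : ∀ p ∈ P, b * p.2 + b' * p.1 = c)
    (hinj : ∀ p ∈ P, ∀ p' ∈ P, p.1 * p.2 = p'.1 * p'.2 → p = p')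
    (R : ℕ) (hR : 1 ≤ R) (hR1 : ∀ p ∈ P, R ^ 2 ≤ p.1 * p.2) (hR2 : ∀ p ∈ P, p.1 * p.2 ≤ 4 * R ^ 2)
    (T : ℝ) (hT : ∀ m : ℤ, m ≠ 0 → |m| ≤ (4 * R ^ 2 : ℕ) → ((b * m).natAbs.divisors.card : ℝ) ≤ T)
    (hT0 : 0 ≤ T) (Y M N : ℕ) (a : ℕ → ℂ) :
    ∑ c ∈ (PC Y).filter (fun c => c.md ∈ P.image (fun p => p.1 * p.2)),
      ‖∑ m ∈ Ioc M (M + N), a m * c.2 (m : ZMod (c.1.val + 1))‖ ^ 2 ≤
      24 * (1 + 5 * Real.sqrt T) * ((N + 8 * R ^ 2) + 8 * R ^ 2 * Real.sqrt (N + 8 * R ^ 2)) *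
        ∑ m ∈ Ioc M (M + N), ‖a m‖ ^ 2 := by
  classical
  obtain ⟨L, hL⟩ : ∃ L : ℝ, L = N + 8 * R ^ 2 := ⟨_, rfl⟩
  rw [← hL]
  have hR0 : (1 : ℝ) ≤ R := by exact_mod_cast hR
  have hR20 : (1 : ℝ) ≤ (R : ℝ) ^ 2 := one_le_pow₀ hR0
  have hN0 : (0 : ℝ) ≤ N := Nat.cast_nonneg N
  have hL8 : 8 * (R : ℝ) ^ 2 ≤ L := by rw [hL]; linarith
  have hL1 : 1 ≤ L := by linarith
  have hL0 : 0 < L := by linarith
  have hsL : 0 < Real.sqrt L := Real.sqrt_pos.2 hL0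
  have hsL2 : Real.sqrt L * Real.sqrt L = L := Real.mul_self_sqrt hL0.le
  have hMr : (((4 * R ^ 2 : ℕ)) : ℝ) = 4 * (R : ℝ) ^ 2 := by push_cast; ring
  obtain ⟨B, hB⟩ : ∃ B : ℝ, B = 1 + 5 * Real.sqrt T * (8 * R ^ 2 / Real.sqrt L + 1) := ⟨_, rfl⟩
  have hB0 : 0 ≤ B := by
    rw [hB]
    positivity
  -- the number of fractions
  have hK : ∀ r ∈ P.image (fun p => p.1 * p.2), ∀ c : ℕ, c < r → c.Coprime r → ∀ t : Finset (ℕ × ℕ),
      (∀ z ∈ t, z.1 ∈ P.image (fun p => p.1 * p.2) ∧ z.2 < z.1 ∧ z.2.Coprime z.1 ∧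
        ∃ n : ℤ, |(z.2 : ℝ) / z.1 - (c : ℝ) / r - n| < 1 / L) → t.card ≤ ⌊B⌋₊ := by
    intro r hr c _ hc t ht
    obtain ⟨p0, hp0, hp0r⟩ := mem_image.1 hr
    have hrl : R ^ 2 ≤ r := by rw [← hp0r]; exact hR1 p0 hp0
    have hru : r ≤ 4 * R ^ 2 := by rw [← hp0r]; exact hR2 p0 hp0
    have hR2pos : 0 < R ^ 2 := by positivity
    have hr0 : 0 < r := by omega
    have hrr : (0 : ℝ) < r := by exact_mod_cast hr0
    have hrl' : (R : ℝ) ^ 2 ≤ r := by exact_mod_cast hrl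
    have hru' : (r : ℝ) ≤ 4 * (R : ℝ) ^ 2 := by exact_mod_cast hru
    obtain ⟨A, hA⟩ : ∃ A, A = P.filter (fun p => ∃ n : ℤ,
      |((p.1 * p.2 : ℕ) : ℝ) * (((c : ℤ) : ℝ) / r) - n| ≤ 1 / L * (4 * R ^ 2 : ℕ)) := ⟨_, rfl⟩
    have h1 : t.card ≤ A.card := by
      have h2 := frac_count P (4 * R ^ 2) hR2 (((c : ℤ) : ℝ) / r) (1 / L) (by positivity) (by
        rw [hMr]
        have : 2 * (1 / L) * (4 * (R : ℝ) ^ 2) = 8 * (R : ℝ) ^ 2 / L := by ring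
        rw [this, div_le_one hL0]
        exact hL8)
      rw [← hA] at h2
      refine le_trans ?_ h2
      choose! g hg using (fun (z : ℕ × ℕ) (hz : z ∈ t) => mem_image.1 (ht z hz).1)
      refine card_le_card_of_injOn (fun z => (⟨g z, z.2⟩ : Σ _ : ℕ × ℕ, ℕ)) ?_ ?_
      · intro z hz
        rw [mem_coe] at hz
        obtain ⟨hz1, hz2, hz3, n, hn⟩ := ht z hz
        have hgz := hg z hz
        rw [mem_coe, mem_filter, mem_sigma, mem_range]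
        refine ⟨⟨hgz.1, ?_⟩, n, ?_⟩
        · show z.2 < (g z).1 * (g z).2
          rw [hgz.2]
          exact hz2
        · show |(z.2 : ℝ) / (((g z).1 * (g z).2 : ℕ) : ℝ) - ((c : ℤ) : ℝ) / r - n| < 1 / L
          rw [hgz.2, Int.cast_natCast]
          exact hn
      · intro z hz w hw hzw
        rw [mem_coe] at hz hw
        have e1 : g z = g w := (Sigma.mk.inj_iff.1 hzw).1
        have e2 : z.2 = w.2 := eq_of_heq (Sigma.mk.inj_iff.1 hzw).2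
        have e3 := (hg z hz).2
        have e4 := (hg w hw).2
        have e5 : z.1 = w.1 := by
          rw [← e3, ← e4, e1]
        exact Prod.ext_iff.2 ⟨e5, e2⟩
    have hcr : IsCoprime (c : ℤ) (r : ℤ) := Nat.isCoprime_iff_coprime.2 hc
    have h2 := sq_count P b b' _ hb hb' hP hinj (4 * R ^ 2) hR2 T hT hT0 r (c : ℤ) hr0 hcr
      (1 / L * (4 * R ^ 2 : ℕ)) (by positivity)
    rw [← hA, hMr] at h2
    obtain ⟨y, hy⟩ : ∃ y : ℝ, y = 8 * R ^ 2 / Real.sqrt L + 1 := ⟨_, rfl⟩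
    have hy1 : 1 ≤ y := by
      rw [hy]
      have : 0 ≤ 8 * (R : ℝ) ^ 2 / Real.sqrt L := by positivity
      linarith
    have hyy : 64 * (R : ℝ) ^ 4 / L + 1 ≤ y ^ 2 := by
      have e : (8 * (R : ℝ) ^ 2 / Real.sqrt L) ^ 2 = 64 * (R : ℝ) ^ 4 / L := by
        rw [div_pow, sq (Real.sqrt L), hsL2]
        ring
      have h0 : 0 ≤ 8 * (R : ℝ) ^ 2 / Real.sqrt L := by positivity
      rw [hy, add_sq, e]
      linarith
    have h3 : 2 * (4 * (R : ℝ) ^ 2) / r + 1 ≤ 9 := by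
      have : 2 * (4 * (R : ℝ) ^ 2) / r ≤ 8 := by
        rw [div_le_iff₀ hrr]
        linarith
      linarith
    have h4 : 4 * (1 / L * (4 * (R : ℝ) ^ 2)) * r + 1 ≤ y ^ 2 := by
      refine le_trans ?_ hyy
      have e : 64 * (R : ℝ) ^ 4 / L = 4 * (1 / L * (4 * (R : ℝ) ^ 2)) * (4 * (R : ℝ) ^ 2) := by
        ring
      rw [e]
      have : 4 * (1 / L * (4 * (R : ℝ) ^ 2)) * r ≤ 4 * (1 / L * (4 * (R : ℝ) ^ 2)) * (4 * (R : ℝ) ^ 2) :=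
        mul_le_mul_of_nonneg_left hru' (by positivity)
      linarith
    have h5 : (A.card : ℝ) ^ 2 ≤ A.card + 18 * T * y ^ 2 := by
      refine h2.trans ?_
      have h6 : (2 * (4 * (R : ℝ) ^ 2) / r + 1) * (4 * (1 / L * (4 * (R : ℝ) ^ 2)) * r + 1) ≤
          9 * y ^ 2 := mul_le_mul h3 h4 (by positivity) (by norm_num)
      have h7 := mul_le_mul_of_nonneg_left h6 (by positivity : 0 ≤ 2 * T)
      linarith
    have h6 : (A.card : ℝ) ≤ B := by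
      rw [hB, ← hy]
      obtain ⟨z, hz⟩ : ∃ z : ℝ, z = 5 * Real.sqrt T * y := ⟨_, rfl⟩
      have hz0 : 0 ≤ z := by
        rw [hz]
        positivity
      have hz2 : z ^ 2 = 25 * T * y ^ 2 := by
        rw [hz, mul_pow, mul_pow, Real.sq_sqrt hT0]
        ring
      rw [← hz]
      by_contra hlt
      rw [not_le] at hlt
      have h8 : 0 ≤ T * y ^ 2 := by positivity
      nlinarith
    apply Nat.le_floor
    refine le_trans ?_ h6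
    exact_mod_cast h1
  have h1 := mls_sub Y (P.image (fun p => p.1 * p.2)) (1 / L) (by positivity) ⌊B⌋₊ hK M N a
  refine h1.trans ?_
  apply mul_le_mul_of_nonneg_right _ (sum_nonneg fun _ _ => sq_nonneg _)
  rw [one_div_one_div]
  have hBf : ((⌊B⌋₊ : ℕ) : ℝ) ≤ B := Nat.floor_le hB0
  have h2 : 8 * ((N : ℝ) + L + 1) ≤ 24 * L := by
    have : (N : ℝ) ≤ L := by rw [hL]; linarith
    linarith
  have h3 : B ≤ (1 + 5 * Real.sqrt T) * (8 * R ^ 2 / Real.sqrt L + 1) := by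
    rw [hB]
    have h4 : 0 ≤ 8 * (R : ℝ) ^ 2 / Real.sqrt L := by positivity
    linarith
  have h4 : (8 * (R : ℝ) ^ 2 / Real.sqrt L + 1) * L = L + 8 * R ^ 2 * Real.sqrt L := by
    have e : 8 * (R : ℝ) ^ 2 / Real.sqrt L * L = 8 * R ^ 2 * Real.sqrt L := by
      rw [div_mul_eq_mul_div, div_eq_iff hsL.ne', mul_assoc, mul_assoc, mul_assoc, hsL2]
    rw [add_mul, e]
    ring
  calc ((⌊B⌋₊ : ℕ) : ℝ) * (8 * ((N : ℝ) + L + 1))
      ≤ ((1 + 5 * Real.sqrt T) * (8 * R ^ 2 / Real.sqrt L + 1)) * (24 * L) :=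
        mul_le_mul (hBf.trans h3) h2 (by positivity) (by positivity)
    _ = 24 * (1 + 5 * Real.sqrt T) * ((8 * (R : ℝ) ^ 2 / Real.sqrt L + 1) * L) := by ring
    _ = _ := by rw [h4]

end Pool.Agent.H82.SPC
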